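import Pool.Agent.Lead.TC3

set_option autoImplicit false

namespace Pool.Agent.Results.MP_e33ffa_co.Exists

open Pool.Agent.Lead.TCDefs

/-- A temporal graph all of whose snapshots are trees with temporal chromatic number 7 or 8. -/
theorem result : ∃ (V : Type) (_ : Finite V) (T : ℕ) (G : ℕ → SimpleGraph V),
    1 ≤ T ∧ (∀ i, 1 ≤ i → i ≤ T → (G i).IsTree) ∧ (chiT T G = 7 ∨ chiT T G = 8) := by
  obtain ⟨m, hm⟩ : ∃ m : ℕ, 360 < m := ⟨361, by norm_num⟩
  exact ⟨Pool.Agent.Lead.TC.W m, Pool.Agent.Lead.TC.finW m, 8, Pool.Agent.Lead.TC.G m, by norm_num,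
    fun i _ _ => Pool.Agent.Lead.TC.G_tree m i, Pool.Agent.Lead.TC.main m hm⟩

end Pool.Agent.Results.MP_e33ffa_co.Exists
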